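import Mathlib
import Pool.Agent.X3.NfaMult

/-!
# Finite automata and the values of the Liouville function

The word formed by the first `N` values of the Liouville function, or of any other nontrivial
completely multiplicative function with values in a finite group, has nearly maximal automatic
complexity.
-/

set_option autoImplicit false

namespace Pool.Agent.Results.MP_4fffd4_nt.AutomaticComplexity

open Finset

/-- the Liouville function `λ(n) = (-1)^Ω(n)` with values in the group `{1, -1}` -/
def lio (n : ℕ) : ℤˣ := (-1) ^ ArithmeticFunction.cardFactors n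

/-- the word `f 1, f 2, …, f N` -/
def word {G : Type} (f : ℕ → G) (N : ℕ) : List G := (List.range N).map fun i => f (i + 1)

/-- the number of words of length `N` accepted by the automaton -/
noncomputable def numAccepted {G σ : Type} (M : NFA G σ) (N : ℕ) : ℕ :=
  {w : List G | w ∈ M.accepts ∧ w.length = N}.ncard

/-- the number of places `n ≤ N` where two sequences differ -/
noncomputable def numErrors {G : Type} (g f : ℕ → G) (N : ℕ) : ℕ :=
  {n : ℕ | 1 ≤ n ∧ n ≤ N ∧ g n ≠ f n}.ncard

/-- What is shown for the words `f 1, …, f N`, `N ≥ 2`, with the exponent `1 / d` and the constant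
`c`, for all nondeterministic finite automata `M` with `q` states:

(1) if `M` accepts a word which differs from `f 1, …, f N` in `k` places and
`k + log N ≤ c (N / q)^(1/d)`, then `M` accepts at least `exp (c (N / q)^(1/d))` words of length `N`;

(2) if `f 1, …, f N` is the only word of length `N` accepted by `M`, then
`q ≥ c^d N / (log N)^d`. -/
def Complex {G : Type} (f : ℕ → G) (d : ℕ) (c : ℝ) : Prop :=
  ∀ (σ : Type) [Fintype σ] (M : NFA G σ) (N : ℕ), 2 ≤ N →
    (∀ g : ℕ → G, word g N ∈ M.accepts →
      (numErrors g f N : ℝ) + Real.log N ≤ c * ((N : ℝ) / Fintype.card σ) ^ (1 / (d : ℝ)) →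
      Real.exp (c * ((N : ℝ) / Fintype.card σ) ^ (1 / (d : ℝ))) ≤ numAccepted M N) ∧
    (word f N ∈ M.accepts → (∀ w ∈ M.accepts, w.length = N → w = word f N) →
      c ^ d * N / Real.log N ^ d ≤ Fintype.card σ)

/-- The Liouville function has the property `Complex` with the exponent `1 / 2`; every completely
multiplicative function `f` with values in a finite commutative group `G` such that `g^d = 1` for all
`g ∈ G` and `f p ≠ 1` has it with the exponent `1 / d` and a constant which depends on `d` and `p`
only. -/
theorem result :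
    (∃ c : ℝ, 0 < c ∧ Complex lio 2 c) ∧
    (∀ d p : ℕ, 1 ≤ d → 1 ≤ p → ∃ c : ℝ, 0 < c ∧ ∀ (G : Type) [CommGroup G] [Finite G],
      (∀ g : G, g ^ d = 1) → ∀ f : ℕ → G, (∀ m n, 1 ≤ m → 1 ≤ n → f (m * n) = f m * f n) →
      f p ≠ 1 → Complex f d c) := by
  have key : ∀ d p : ℕ, 1 ≤ d → 1 ≤ p → ∃ c : ℝ, 0 < c ∧ ∀ (G : Type) [CommGroup G] [Finite G],
      (∀ g : G, g ^ d = 1) → ∀ f : ℕ → G, (∀ m n, 1 ≤ m → 1 ≤ n → f (m * n) = f m * f n) →
      f p ≠ 1 → Complex f d c := by
    intro d p hd hp
    obtain ⟨c, hc, h⟩ := Pool.Agent.X3.NfaMult.words d p hd hp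
    have hdR : (0 : ℝ) < d := by exact_mod_cast (show 0 < d by omega)
    refine ⟨c, hc, fun G _ _ hG f hf hfp σ _ M N hN => ?_⟩
    have hfin : {w : List G | w ∈ M.accepts ∧ w.length = N}.Finite :=
      (List.finite_length_eq G N).subset fun w hw => hw.2
    have hfst : ∀ g : ℕ → G, word g N ∈ M.accepts →
        (numErrors g f N : ℝ) + Real.log N ≤ c * ((N : ℝ) / Fintype.card σ) ^ (1 / (d : ℝ)) →
        Real.exp (c * ((N : ℝ) / Fintype.card σ) ^ (1 / (d : ℝ))) ≤ numAccepted M N := by
      intro g hg hk
      classical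
      obtain ⟨W, hW1, hW2⟩ := h G hG f hf hfp σ M N hN (fun i => g (i + 1)) (numErrors g f N) hg
        ⟨(range N).filter fun i => g (i + 1) ≠ f (i + 1), by
          unfold numErrors
          rw [← Set.ncard_coe_finset]
          refine Set.ncard_le_ncard_of_injOn (fun i => i + 1) ?_ (fun i _ j _ h => by
            simpa using h) ((Set.finite_Icc 1 N).subset fun n hn => ⟨hn.1, hn.2.1⟩)
          intro i hi
          simp only [coe_filter, mem_range, Set.mem_ofPred_eq] at hi
          exact ⟨by omega, by omega, hi.2⟩, by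
          intro i hi hn
          by_contra hne
          exact hn (mem_filter.2 ⟨mem_range.2 hi, hne⟩)⟩ hk
      refine hW2.trans ?_
      have h1 : ((W : Set (List G))).ncard ≤ {w : List G | w ∈ M.accepts ∧ w.length = N}.ncard :=
        Set.ncard_le_ncard (fun w hw => ⟨(hW1 w hw).2, (hW1 w hw).1⟩) hfin
      rw [Set.ncard_coe_finset] at h1
      exact_mod_cast h1
    refine ⟨hfst, fun hacc huniq => ?_⟩
    have hq : 1 ≤ Fintype.card σ := by
      rw [NFA.accepts_iff_exists_path] at hacc
      obtain ⟨s, -⟩ := hacc
      exact Fintype.card_pos_iff.2 ⟨s⟩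
    have hqR : (0 : ℝ) < Fintype.card σ := by exact_mod_cast hq
    have hNR : (2 : ℝ) ≤ N := by exact_mod_cast hN
    have hlog : 0 < Real.log N := Real.log_pos (by linarith)
    have hpos : 0 < ((N : ℝ) / Fintype.card σ) ^ (1 / (d : ℝ)) := by positivity
    by_contra hcon
    push Not at hcon
    have h1 : (numErrors f f N : ℝ) + Real.log N ≤
        c * ((N : ℝ) / Fintype.card σ) ^ (1 / (d : ℝ)) := by
      have e : numErrors f f N = 0 := by simp [numErrors]
      rw [e, Nat.cast_zero, zero_add]
      have h2 : (Real.log N / c) ^ (d : ℝ) ≤ (N : ℝ) / Fintype.card σ := by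
        rw [Real.div_rpow hlog.le hc.le, Real.rpow_natCast, Real.rpow_natCast,
          div_le_div_iff₀ (by positivity) hqR]
        have h3 := mul_lt_mul_of_pos_right hcon (show 0 < Real.log N ^ d by positivity)
        rw [div_mul_cancel₀ _ (by positivity)] at *
        nlinarith
      have h4 := Real.rpow_le_rpow (by positivity) h2 (show 0 ≤ 1 / (d : ℝ) by positivity)
      rw [← Real.rpow_mul (by positivity), mul_one_div_cancel hdR.ne', Real.rpow_one,
        div_le_iff₀ hc] at h4
      linarith
    have h5 := hfst f hacc h1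
    have h6 : numAccepted M N ≤ 1 := by
      unfold numAccepted
      rw [Set.ncard_le_one_iff hfin]
      intro u v hu hv
      rw [huniq u hu.1 hu.2, huniq v hv.1 hv.2]
    have h7 : (numAccepted M N : ℝ) ≤ 1 := by exact_mod_cast h6
    have h8 : 1 < Real.exp (c * ((N : ℝ) / Fintype.card σ) ^ (1 / (d : ℝ))) :=
      Real.one_lt_exp_iff.2 (by positivity)
    linarith
  refine ⟨?_, key⟩
  obtain ⟨c, hc, h⟩ := key 2 2 (by norm_num) (by norm_num)
  refine ⟨c, hc, h ℤˣ (fun g => Int.units_sq g) lio ?_ ?_⟩
  · intro m n hm hn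
    unfold lio
    rw [ArithmeticFunction.cardFactors_mul (by omega) (by omega), pow_add]
  · unfold lio
    rw [ArithmeticFunction.cardFactors_apply_prime Nat.prime_two]
    decide

end Pool.Agent.Results.MP_4fffd4_nt.AutomaticComplexity
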