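import Mathlib
import Pool.Agent.X3.LinMult
import Pool.Agent.X3.LinFrob

/-!
# The first sign patterns of the Liouville function are affinely independent

The `n + 1` sign patterns of length `n` at the first `n + 1` places of the Liouville function are
affinely independent, and the product of the values `λ(m + j)`, `j ∈ J`, takes both values `1` and
`-1` for `0 ≤ m ≤ max J`, for each nonempty finite set `J` of positive integers. The same holds for all
functions `f` with values `1`, `-1` and `f (2 k) = - f k`. Hence the linear complexity of the first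
`N` values is at least `(N - 1) / 2` in characteristic `0` and `2`.
-/

set_option autoImplicit false

namespace Pool.Agent.Results.MP_4fffd4_nt.LinearComplexity

open Finset

/-- the Liouville function `λ(n) = (-1)^Ω(n)` with values in the group `{1, -1}` -/
def lam (n : ℕ) : ℤˣ := (-1) ^ ArithmeticFunction.cardFactors n

/-- `f (2 k) = - f k` for all `k ≥ 1` -/
def Doubling (f : ℕ → ℤˣ) : Prop := ∀ k, 1 ≤ k → f (2 * k) = - f k

/-- the function `f` with its two values `1` and `-1` replaced by `a` and `b` -/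
def val {F : Type} (f : ℕ → ℤˣ) (a b : F) (n : ℕ) : F := if f n = 1 then a else b

/-- the pattern `x (m + 1), …, x (m + n)` of length `n` -/
def pattern {F : Type} (x : ℕ → F) (n m : ℕ) : Fin n → F := fun j => x (m + j + 1)

/-- the word `x 1, …, x N` satisfies a linear recurrence of order `L` with coefficients in `F` -/
def Recurrent {F : Type} [Field F] (x : ℕ → F) (N L : ℕ) : Prop :=
  ∃ c : Fin L → F, ∀ n, 1 ≤ n → n + L ≤ N → x (n + L) = ∑ i : Fin L, c i * x (n + i)

theorem lam_doubling : Doubling lam := by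
  intro k hk
  unfold lam
  rw [ArithmeticFunction.cardFactors_mul (by norm_num) (by omega), pow_add,
    ArithmeticFunction.cardFactors_apply_prime Nat.prime_two, pow_one]
  simp

/-- the bits of `f` -/
def bit (f : ℕ → ℤˣ) (n : ℕ) : ℤ := if f n = 1 then 0 else 1

theorem bit_doubling {f : ℕ → ℤˣ} (hf : Doubling f) (n : ℕ) (hn : 1 ≤ n) :
    ((bit f (2 * n) : ℤ) : ZMod 2) = ((bit f n : ℤ) : ZMod 2) + 1 := by
  unfold bit
  rw [hf n hn]
  rcases Int.units_eq_one_or (f n) with h | h
  · rw [h]
    decide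
  · rw [h]
    decide

/-- the matrix with the rows `(1, x (m + 1), …, x (m + n))` -/
def A (f : ℕ → ℤˣ) (n : ℕ) : Matrix (Fin (n + 1)) (Fin (n + 1)) ℤ :=
  fun m j => if (j : ℕ) = 0 then 1 else bit f (m + j)

theorem det_odd {f : ℕ → ℤˣ} (hf : Doubling f) (n : ℕ) : ((A f n).det : ZMod 2) ≠ 0 := by
  intro hdet
  have h1 : ((A f n).map (Int.castRingHom (ZMod 2))).det = 0 := by
    have := RingHom.map_det (Int.castRingHom (ZMod 2)) (A f n)
    rw [RingHom.mapMatrix_apply] at this
    rw [← this]
    exact hdet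
  obtain ⟨v, hv, hv0⟩ := Matrix.exists_mulVec_eq_zero_iff.2 h1
  -- the linear form
  obtain ⟨d, hd⟩ : ∃ d : ℕ → ZMod 2, d = fun j => if hj : 0 < j ∧ j < n + 1 then v ⟨j, hj.2⟩ else 0 :=
    ⟨_, rfl⟩
  obtain ⟨F, hF⟩ : ∃ F : Polynomial (ZMod 2), F = ∑ j ∈ range (n + 1), Polynomial.monomial j (d j) :=
    ⟨_, rfl⟩
  have hcoeff : ∀ j, F.coeff j = d j := by
    intro j
    rw [hF, Polynomial.finsetSum_coeff]
    simp only [Polynomial.coeff_monomial]
    rw [sum_ite_eq' (range (n + 1)) j]
    by_cases hj : j ∈ range (n + 1)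
    · rw [if_pos hj]
    · rw [if_neg hj, hd]
      simp only
      rw [dif_neg]
      intro h
      exact hj (mem_range.2 h.2)
  have hFdeg : F.natDegree ≤ n := by
    rw [Polynomial.natDegree_le_iff_coeff_eq_zero]
    intro j hj
    rw [hcoeff, hd]
    simp only
    rw [dif_neg]
    omega
  have hrow : ∀ m, m ≤ n → v 0 + ∑ j ∈ range (n + 1), d j * ((bit f (m + j) : ℤ) : ZMod 2) = 0 := by
    intro m hm
    have h2 := congrFun hv0 ⟨m, by omega⟩
    rw [Matrix.mulVec, dotProduct, Pi.zero_apply] at h2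
    rw [← h2, Fin.sum_univ_succ, sum_range_succ']
    have e0 : d 0 = 0 := by
      rw [hd]
      simp
    rw [e0, zero_mul, add_zero]
    congr 1
    · simp [A]
    · rw [Finset.sum_range]
      refine sum_congr rfl fun j _ => ?_
      rw [hd]
      simp only [Matrix.map_apply, A, Fin.val_succ]
      rw [dif_pos ⟨by omega, by have := j.2; omega⟩, if_neg (by omega)]
      rw [mul_comm]
      congr 1
  have : Fact (Nat.Prime 2) := ⟨Nat.prime_two⟩
  by_cases hF0 : F = 0
  · apply hv
    have hdz : ∀ j, d j = 0 := fun j => by rw [← hcoeff, hF0, Polynomial.coeff_zero]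
    have h0 : v 0 = 0 := by
      have := hrow 0 (Nat.zero_le _)
      simp only [hdz, zero_mul, sum_const_zero, add_zero] at this
      exact this
    funext j
    rcases Nat.eq_zero_or_pos (j : ℕ) with h | h
    · have : j = 0 := Fin.ext h
      rw [this, h0]
      rfl
    · have h3 := hdz j
      rw [hd] at h3
      simp only at h3
      rw [dif_pos ⟨h, j.2⟩] at h3
      exact h3
  · refine Pool.Agent.X3.LinFrob.core (p := 2) (fun k => ((bit f k : ℤ) : ZMod 2)) F.natDegree 1
      one_ne_zero (fun k hk _ => bit_doubling hf k hk) F hF0 rfl (by rw [hcoeff, hd]; simp) (- v 0) ?_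
    intro m hm
    have h4 := hrow m (by omega)
    have h5 : ∑ j ∈ range (n + 1), d j * ((bit f (m + j) : ℤ) : ZMod 2) =
        ∑ j ∈ range (F.natDegree + 1), F.coeff j * ((bit f (m + j) : ℤ) : ZMod 2) := by
      symm
      have h6 : ∀ j, F.coeff j * ((bit f (m + j) : ℤ) : ZMod 2) =
          d j * ((bit f (m + j) : ℤ) : ZMod 2) := fun j => by rw [hcoeff]
      rw [sum_congr rfl fun j _ => h6 j]
      refine sum_subset (fun j hj => ?_) (fun j _ hj' => ?_)
      · rw [mem_range] at hj ⊢
        omega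
      · rw [mem_range] at hj'
        rw [← hcoeff, Polynomial.coeff_eq_zero_of_natDegree_lt (by omega), zero_mul]
    rw [← h5]
    exact eq_neg_of_add_eq_zero_right h4

theorem det_ne {f : ℕ → ℤˣ} (hf : Doubling f) (n : ℕ) (F : Type) [Field F]
    (hF : CharZero F ∨ CharP F 2) : ((A f n).map (Int.castRingHom F)).det ≠ 0 := by
  have h1 := det_odd hf n
  have h2 := RingHom.map_det (Int.castRingHom F) (A f n)
  rw [RingHom.mapMatrix_apply] at h2
  rw [← h2]
  rcases hF with hF | hF
  · intro h3
    apply h1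
    have h4 : (A f n).det = 0 := by
      have : (((A f n).det : ℤ) : F) = 0 := h3
      exact_mod_cast this
    rw [h4]
    simp
  · intro h3
    apply h1
    have h4 : (((A f n).det : ℤ) : F) = 0 := h3
    rw [CharP.intCast_eq_zero_iff F 2] at h4
    rw [CharP.intCast_eq_zero_iff (ZMod 2) 2]
    exact h4

theorem val_eq {F : Type} [Field F] (f : ℕ → ℤˣ) (a b : F) (n : ℕ) :
    val f a b n = a + (b - a) * ((bit f n : ℤ) : F) := by
  unfold val bit
  by_cases h : f n = 1
  · rw [if_pos h, if_pos h]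
    simp
  · rw [if_neg h, if_neg h]
    simp

theorem units_mul : ∀ u v : ℤˣ, ((if u * v = 1 then 0 else 1 : ℤ) : ZMod 2) =
    ((if u = 1 then 0 else 1 : ℤ) : ZMod 2) + ((if v = 1 then 0 else 1 : ℤ) : ZMod 2) := by decide

theorem units_ne : ∀ u v : ℤˣ, u ≠ v → u = - v := by decide

theorem signs {f : ℕ → ℤˣ} (hf : Doubling f) (J : Finset ℕ) (hJ : J.Nonempty) (h0 : 0 ∉ J)
    (ε : ℤˣ) : ∃ m, m ≤ J.max' hJ ∧ ∏ j ∈ J, f (m + j) = ε := by
  by_contra hcon
  push Not at hcon
  have : Fact (Nat.Prime 2) := ⟨Nat.prime_two⟩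
  obtain ⟨D, hD⟩ : ∃ D, D = J.max' hJ := ⟨_, rfl⟩
  obtain ⟨F, hF⟩ : ∃ F : Polynomial (ZMod 2), F = ∑ j ∈ J, Polynomial.X ^ j := ⟨_, rfl⟩
  have hcoeff : ∀ j, F.coeff j = if j ∈ J then 1 else 0 := by
    intro j
    rw [hF, Polynomial.finsetSum_coeff]
    simp only [Polynomial.coeff_X_pow]
    rw [sum_ite_eq]
  have hDJ : D ∈ J := by rw [hD]; exact J.max'_mem hJ
  have hdeg : F.natDegree = D := by
    apply le_antisymm
    · rw [Polynomial.natDegree_le_iff_coeff_eq_zero]
      intro j hj
      rw [hcoeff, if_neg]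
      intro hjJ
      have := J.le_max' j hjJ
      omega
    · apply Polynomial.le_natDegree_of_ne_zero
      rw [hcoeff, if_pos hDJ]
      exact one_ne_zero
  have hF0 : F ≠ 0 := by
    intro h
    have := hcoeff D
    rw [h, if_pos hDJ, Polynomial.coeff_zero] at this
    exact zero_ne_one this
  -- the product in terms of the bits
  have hprod : ∀ (m : ℕ) (S : Finset ℕ), ((if ∏ j ∈ S, f (m + j) = 1 then 0 else 1 : ℤ) : ZMod 2) =
      ∑ j ∈ S, ((bit f (m + j) : ℤ) : ZMod 2) := by
    intro m S
    induction S using Finset.induction_on with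
    | empty => simp
    | insert j S hj ih =>
      rw [prod_insert hj, sum_insert hj, units_mul, ih]
      rfl
  have hconst : ∀ m, m ≤ D → ∏ j ∈ J, f (m + j) = - ε := by
    intro m hm
    exact units_ne _ _ (hcon m (by rw [← hD]; exact hm))
  refine Pool.Agent.X3.LinFrob.core (p := 2) (fun k => ((bit f k : ℤ) : ZMod 2)) D 1
      one_ne_zero (fun k hk _ => bit_doubling hf k hk) F hF0 hdeg (by rw [hcoeff, if_neg h0])
      ((if - ε = 1 then 0 else 1 : ℤ) : ZMod 2) ?_
  intro m hm
  rw [← hconst m (by omega), hprod]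
  simp only [hcoeff, ite_mul, one_mul, zero_mul]
  rw [← sum_filter]
  refine sum_congr ?_ fun _ _ => rfl
  ext j
  rw [mem_filter, mem_range]
  refine ⟨fun h => h.2, fun h => ⟨?_, h⟩⟩
  have := J.le_max' j h
  omega

theorem indep {f : ℕ → ℤˣ} (hf : Doubling f) (F : Type) [Field F] (hF : CharZero F ∨ CharP F 2)
    (a b : F) (hab : a ≠ b) (n : ℕ) :
    AffineIndependent F fun m : Fin (n + 1) => pattern (val f a b) n m := by
  rw [affineIndependent_iff]
  intro s w hw1 hw2 i hi
  obtain ⟨w', hw'⟩ : ∃ w' : Fin (n + 1) → F, w' = fun i => if i ∈ s then w i else 0 := ⟨_, rfl⟩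
  have hs1 : ∑ m, w' m = 0 := by
    rw [hw']
    have e1 : ∑ m, (if m ∈ s then w m else 0) = ∑ m ∈ s, w m := by simp
    rw [e1]
    exact hw1
  have hs2 : ∀ j : Fin n, ∑ m : Fin (n + 1), w' m * val f a b (m + j + 1) = 0 := by
    intro j
    have h1 := congrFun hw2 j
    rw [Finset.sum_apply, Pi.zero_apply] at h1
    rw [hw']
    have e1 : ∑ m : Fin (n + 1), (if m ∈ s then w m else 0) * val f a b (m + j + 1) =
        ∑ m ∈ s, (w m • pattern (val f a b) n m) j := by simp [pattern]
    rw [e1]
    exact h1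
  have hs3 : ∀ j : Fin n, ∑ m : Fin (n + 1), w' m * ((bit f (m + j + 1) : ℤ) : F) = 0 := by
    intro j
    have h1 := hs2 j
    simp only [val_eq, mul_add] at h1
    rw [sum_add_distrib, ← sum_mul, hs1, zero_mul, zero_add] at h1
    have h2 : (b - a) * ∑ m : Fin (n + 1), w' m * ((bit f (m + j + 1) : ℤ) : F) = 0 := by
      rw [← h1, mul_sum]
      refine sum_congr rfl fun m _ => ?_
      ring
    rcases mul_eq_zero.1 h2 with h3 | h3
    · exact absurd (sub_eq_zero.1 h3).symm hab
    · exact h3
  have hz : Matrix.vecMul w' ((A f n).map (Int.castRingHom F)) = 0 := by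
    funext j
    rw [Matrix.vecMul, dotProduct, Pi.zero_apply]
    rcases Fin.eq_zero_or_eq_succ j with rfl | ⟨j, rfl⟩
    · simp only [Matrix.map_apply, A, Fin.val_zero, if_true, map_one, mul_one]
      exact hs1
    · rw [← hs3 j]
      refine sum_congr rfl fun m _ => ?_
      simp only [Matrix.map_apply, A, Fin.val_succ]
      rw [if_neg (by omega)]
      rfl
  have h4 := Matrix.eq_zero_of_vecMul_eq_zero (det_ne hf n F hF) hz
  have h5 := congrFun h4 i
  rw [hw'] at h5
  simpa [hi] using h5

theorem complexity {f : ℕ → ℤˣ} (hf : Doubling f) (F : Type) [Field F]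
    (hF : CharZero F ∨ CharP F 2) (a b : F) (hab : a ≠ b) (N L : ℕ)
    (h : Recurrent (val f a b) N L) : N ≤ 2 * L + 1 := by
  by_contra hcon
  push Not at hcon
  obtain ⟨c, hc⟩ := h
  -- the relation
  obtain ⟨v, hv⟩ : ∃ v : ℕ → F, v = fun j => if hj : j < L then - c ⟨j, hj⟩ else 1 := ⟨_, rfl⟩
  have hrel : ∀ m, m ≤ L + 1 → ∑ j ∈ range (L + 1), v j * val f a b (m + j + 1) = 0 := by
    intro m hm
    rw [sum_range_succ, Finset.sum_range]
    have h1 := hc (m + 1) (by omega) (by omega)
    have h2 : ∑ i : Fin L, v i * val f a b (m + i + 1) = - ∑ i : Fin L, c i * val f a b (m + 1 + i) := by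
      rw [← sum_neg_distrib]
      refine sum_congr rfl fun i _ => ?_
      rw [hv]
      simp only [i.2, dif_pos]
      rw [show m + (i : ℕ) + 1 = m + 1 + i by ring]
      ring
    rw [h2, ← h1, hv]
    simp only [lt_irrefl, dif_neg, not_false_eq_true]
    rw [show m + L + 1 = m + 1 + L by ring]
    ring
  obtain ⟨w, hw⟩ : ∃ w : Fin (L + 1 + 1) → F, w = fun j : Fin (L + 1 + 1) =>
    if (j : ℕ) = 0 then a * ∑ i ∈ range (L + 1), v i else (b - a) * v (j - 1) := ⟨_, rfl⟩
  have hz : Matrix.mulVec ((A f (L + 1)).map (Int.castRingHom F)) w = 0 := by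
    funext m
    rw [Matrix.mulVec, dotProduct, Pi.zero_apply, Fin.sum_univ_succ]
    have h1 := hrel m (by have := m.2; omega)
    simp only [val_eq, mul_add] at h1
    rw [sum_add_distrib, ← sum_mul] at h1
    rw [← h1]
    congr 1
    · rw [hw]
      simp [A, mul_comm]
    · rw [Finset.sum_range]
      refine sum_congr rfl fun j _ => ?_
      rw [hw]
      simp only [Matrix.map_apply, A, Fin.val_succ]
      rw [if_neg (by omega), if_neg (by omega), Nat.add_sub_cancel]
      simp only [eq_intCast]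
      rw [show (m : ℕ) + (j + 1) = m + j + 1 by ring]
      ring
  have h4 := Matrix.eq_zero_of_mulVec_eq_zero (det_ne hf (L + 1) F hF) hz
  have h5 := congrFun h4 (Fin.last (L + 1))
  rw [hw] at h5
  simp only [Fin.val_last, Pi.zero_apply] at h5
  rw [if_neg (by omega), Nat.add_sub_cancel, hv] at h5
  simp only [lt_irrefl, dif_neg, not_false_eq_true, mul_one] at h5
  exact hab (sub_eq_zero.1 h5).symm

open Pool.Agent.X3.LinMult in
theorem two (F : Type) [Field F] (a b : F) (hab : a ≠ b) (N L : ℕ)
    (h : Recurrent (val lam a b) N L) : N < (2 * L + 1) * (2 * L + 2) := by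
  obtain ⟨c, hc⟩ := h
  by_contra hcon
  push Not at hcon
  obtain ⟨φ, hφ⟩ : ∃ φ : F →+* AlgebraicClosure F, φ = algebraMap F (AlgebraicClosure F) := ⟨_, rfl⟩
  refine two_values (K := AlgebraicClosure F) (a := φ a) (b := φ b)
    (lam := fun n => (-1 : ℤˣ) ^ ArithmeticFunction.cardFactors n) (N := N)
    (fun h => hab (φ.injective h)) ?_ ?_ ⟨L, fun i => φ (c i)⟩ hcon
    (x := fun n => φ (val lam a b (n + 1))) ?_ ?_
  · intro m n hm hn
    rw [ArithmeticFunction.cardFactors_mul (by omega) (by omega), pow_add]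
  · intro p hp
    rw [ArithmeticFunction.cardFactors_apply_prime hp, pow_one]
  · intro n
    unfold val lam
    by_cases h : (-1 : ℤˣ) ^ ArithmeticFunction.cardFactors (n + 1) = 1
    · rw [if_pos h, if_pos h]
    · rw [if_neg h, if_neg h]
  · intro n hn
    have h1 := hc (n + 1) (by omega) (by simp only at hn; omega)
    have e : n + 1 + L = n + L + 1 := by ring
    rw [e] at h1
    simp only
    rw [h1, map_sum]
    refine Finset.sum_congr rfl fun i _ => ?_
    rw [map_mul]
    congr 3
    ring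

/-- Let `f : ℕ → {1, -1}` satisfy `f (2 k) = - f k` for all `k ≥ 1`; the Liouville function does.

(1) For each nonempty finite set `J` of positive integers and each sign `ε` there is
`0 ≤ m ≤ max J` such that the product of the `f (m + j)`, `j ∈ J`, is `ε`.

(2) For each `n` the `n + 1` patterns `f (m + 1), …, f (m + n)`, `0 ≤ m ≤ n`, are affinely independent
over each field of characteristic `0`, and also over each field of characteristic `2` if the values
`1`, `-1` are replaced by two different elements `a`, `b`.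

(3) If the word `f 1, …, f N` (in characteristic `2` with the values `a ≠ b`) satisfies a linear
recurrence of order `L` over a field of characteristic `0` or `2`, then `N ≤ 2 L + 1`.

(4) If the first `N` values of the Liouville function, with the values `1`, `-1` replaced by two
different elements `a`, `b` of any field, satisfy a linear recurrence of order `L` over this field,
then `N < (2 L + 1) (2 L + 2)`.

(5) Let `g : ℕ → F` be completely multiplicative and different from zero on `1, …, N`. If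
`g 1, …, g N` satisfy a linear recurrence of order `L` over `F` and `2 L (L + 1) ≤ N`, then there is
`j < L` with `g n = n^j` for `n = 1, …, N`. -/
theorem result :
    Doubling lam ∧
    (∀ f : ℕ → ℤˣ, Doubling f →
      (∀ (J : Finset ℕ) (hJ : J.Nonempty), 0 ∉ J → ∀ ε : ℤˣ,
        ∃ m, m ≤ J.max' hJ ∧ ∏ j ∈ J, f (m + j) = ε) ∧
      (∀ (F : Type) [Field F], CharZero F ∨ CharP F 2 → ∀ a b : F, a ≠ b →
        (∀ n : ℕ, AffineIndependent F fun m : Fin (n + 1) => pattern (val f a b) n m) ∧
        (∀ N L : ℕ, Recurrent (val f a b) N L → N ≤ 2 * L + 1))) ∧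
    (∀ (F : Type) [Field F] (a b : F), a ≠ b → ∀ N L : ℕ, Recurrent (val lam a b) N L →
      N < (2 * L + 1) * (2 * L + 2)) ∧
    (∀ (F : Type) [Field F] (g : ℕ → F), (∀ m n, 1 ≤ m → 1 ≤ n → g (m * n) = g m * g n) →
      ∀ N L : ℕ, 1 ≤ N → (∀ n, 1 ≤ n → n ≤ N → g n ≠ 0) → 2 * L * (L + 1) ≤ N → Recurrent g N L →
      ∃ j, j < L ∧ ∀ n, 1 ≤ n → n ≤ N → g n = (n : F) ^ j) := by
  refine ⟨lam_doubling, fun f hf => ⟨signs hf, fun F _ hF a b hab =>
    ⟨indep hf F hF a b hab, complexity hf F hF a b hab⟩⟩, two, ?_⟩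
  intro F _ f hf N L hN1 hf0 hN ⟨c, hc⟩
  obtain ⟨φ, hφ⟩ : ∃ φ : F →+* AlgebraicClosure F, φ = algebraMap F (AlgebraicClosure F) := ⟨_, rfl⟩
  obtain ⟨j, hj1, hj2⟩ := Pool.Agent.X3.LinMult.classify (K := AlgebraicClosure F)
    (f := fun n => φ (f n)) (N := N)
    (fun m n hm hn => by rw [hf m n hm hn, map_mul])
    (fun n h1 h2 h => hf0 n h1 h2 (φ.injective (by rw [map_zero]; exact h)))
    ⟨L, fun i => φ (c i)⟩ hN hN1 (by
      intro n h1 h2
      simp only at h2 ⊢
      rw [hc n h1 h2, map_sum]
      refine Finset.sum_congr rfl fun i _ => ?_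
      rw [map_mul])
  refine ⟨j, hj1, fun n h1 h2 => φ.injective ?_⟩
  have := hj2 n h1 h2
  rw [this, map_pow, map_natCast]

end Pool.Agent.Results.MP_4fffd4_nt.LinearComplexity
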