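import Pool.Agent.Y885.KP4

/-!
# All sign patterns of the Liouville function at positions next to arbitrary given positions

Any `k` positions of size `O(N)` become positions at which all the `2 ^ k` sign patterns of the Liouville function
occur, and with the expected frequency `2 ^ (-k)` among the `n ≤ X`, after the addition to each of them of the sum of
`O((log log N) ^ 2)` elements of an arbitrary set which contains an element of every interval `[x, l x]`.

Used from the starting files: the library `Pool.Agent.Y885` (helper885) on shifts which are sums of elements of such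
sets, based on the bounds for the exponential sum over the Liouville function (`Pool.Agent.H373R2.T7`,
`Pool.Agent.H807R2.Dav`, `Pool.Agent.W93`).
-/

set_option autoImplicit false

namespace Pool.Agent.Results.MP_4fffd4_nt.ShatteredNearAnyPositions

open Finset

/-- The Liouville function. -/
def lam (n : ℕ) : ℤ := (-1) ^ ArithmeticFunction.cardFactors n

/-- the sign patterns and the products -/
lemma patterns (k : ℕ) (T : Finset ℕ) (s : Fin k → ℕ → ℤ) (hs : ∀ i n, s i n = 1 ∨ s i n = -1) (B : ℝ)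
    (hB0 : 0 ≤ B)
    (hB : ∀ I : Finset (Fin k), I.Nonempty → |((∑ n ∈ T, ∏ i ∈ I, s i n : ℤ) : ℝ)| ≤ B) (v : Fin k → ℤ)
    (hv : ∀ i, v i = 1 ∨ v i = -1) :
    |((((T.filter (fun n => ∀ i, s i n = v i)).card : ℕ) : ℝ)) - (T.card : ℝ) / 2 ^ k| ≤ B := by
  classical
  have e1 : ∀ n, (if ∀ i, s i n = v i then (1 : ℤ) else 0) * 2 ^ k = ∏ i, (v i * s i n + 1) := by
    intro n
    split_ifs with h
    · have : ∀ i : Fin k, v i * s i n + 1 = 2 := by
        intro i
        rw [h i]
        rcases hv i with h1 | h1 <;> rw [h1] <;> norm_num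
      rw [prod_congr rfl (fun i _ => this i), prod_const, card_univ, Fintype.card_fin, one_mul]
    · push Not at h
      obtain ⟨i, hi⟩ := h
      rw [zero_mul]
      symm
      apply prod_eq_zero (mem_univ i)
      rcases hv i with h1 | h1 <;> rcases hs i n with h2 | h2 <;> simp [h1, h2] at hi ⊢
  have e2 : (((T.filter (fun n => ∀ i, s i n = v i)).card : ℕ) : ℤ) * 2 ^ k =
      ∑ I ∈ (univ : Finset (Fin k)).powerset, (∏ i ∈ I, v i) * ∑ n ∈ T, ∏ i ∈ I, s i n := by
    rw [card_filter]
    push_cast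
    rw [sum_mul, sum_congr rfl (fun n _ => e1 n)]
    rw [sum_congr rfl (fun n _ => prod_add_one (f := fun i => v i * s i n) univ), sum_comm]
    refine sum_congr rfl fun I _ => ?_
    rw [mul_sum]
    refine sum_congr rfl fun n _ => ?_
    rw [prod_mul_distrib]
  have e3 : (((T.filter (fun n => ∀ i, s i n = v i)).card : ℕ) : ℤ) * 2 ^ k - T.card =
      ∑ I ∈ ((univ : Finset (Fin k)).powerset).erase ∅, (∏ i ∈ I, v i) * ∑ n ∈ T, ∏ i ∈ I, s i n := by
    rw [e2, ← add_sum_erase _ _ (empty_mem_powerset _)]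
    simp
  have e4 : |(((((T.filter (fun n => ∀ i, s i n = v i)).card : ℕ) : ℤ) * 2 ^ k - T.card : ℤ) : ℝ)| ≤ (2 ^ k - 1) * B := by
    rw [e3]
    push_cast
    refine (abs_sum_le_sum_abs _ _).trans ?_
    calc ∑ I ∈ ((univ : Finset (Fin k)).powerset).erase ∅, |(∏ i ∈ I, (v i : ℝ)) * ∑ n ∈ T, ∏ i ∈ I, (s i n : ℝ)| ≤
          ∑ I ∈ ((univ : Finset (Fin k)).powerset).erase ∅, B := by
          apply sum_le_sum
          intro I hI
          rw [abs_mul, abs_prod]
          have h1 : ∏ i ∈ I, |(v i : ℝ)| = 1 := by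
            apply prod_eq_one
            intro i _
            rcases hv i with h1 | h1 <;> rw [h1] <;> norm_num
          rw [h1, one_mul]
          have := hB I (nonempty_iff_ne_empty.2 (ne_of_mem_erase hI))
          push_cast at this
          exact this
      _ = (2 ^ k - 1) * B := by
          rw [sum_const, card_erase_of_mem (empty_mem_powerset _), card_powerset, card_univ, Fintype.card_fin, nsmul_eq_mul,
            Nat.cast_sub Nat.one_le_two_pow]
          push_cast; ring
  have h2k : (0 : ℝ) < 2 ^ k := by positivity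
  have e5 : ((((T.filter (fun n => ∀ i, s i n = v i)).card : ℕ) : ℝ)) - (T.card : ℝ) / 2 ^ k =
      (((((T.filter (fun n => ∀ i, s i n = v i)).card : ℕ) : ℤ) * 2 ^ k - T.card : ℤ) : ℝ) / 2 ^ k := by
    push_cast
    field_simp
  rw [e5, abs_div, abs_of_pos h2k, div_le_iff₀ h2k]
  refine e4.trans ?_
  nlinarith

/-- For all `l ≥ 2`, `P ≥ 1`, `κ` and `U` there is a constant `C` such that for all `H` and `B` there is an `N₀` with
the following property. Let `N ≥ N₀` and `2 ^ k ≤ log ^ κ N` (so `k` may grow like `log log N`). Let `A 1, ..., A k` be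
arbitrary sets of integers each of which contains an element of every interval `[x, l x]`, `x ≥ 1` (`C` and `N₀` do not
depend on these sets), let `0 ≤ h i ≤ B N` be arbitrary integers, and let `T m`, where `m` ranges over at most
`log ^ κ N` indices, be arbitrary sets of integers. Then there are sets `S i` of at most `C (log log N) ^ 2` elements of
`A i`, all between `log ^ H N` and `N / log ^ H N`, with sums divisible by `P`, such that the positions `b i`, which are
the sums of `h i` and of the elements of `S i`, have the following property: for every one of the `2 ^ k` sign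
patterns `v`, every `m` and every `X ≤ B N`, the number of the `n ≤ X` in `T m` with `λ(n + b i) = v i` for all `i`
differs from `2 ^ (-k) #{n ≤ X : n ∈ T m}` by at most `N / log ^ U N`. -/
theorem result (l P κ U : ℕ) (hl : 2 ≤ l) (hP : 1 ≤ P) : ∃ C : ℝ, ∀ H B : ℕ, ∃ N₀ : ℕ, ∀ N : ℕ, N₀ ≤ N →
    ∀ k : ℕ, (2 : ℝ) ^ k ≤ Real.log N ^ κ →
    ∀ A : Fin k → Set ℕ, (∀ i, ∀ x : ℕ, 1 ≤ x → ∃ s ∈ A i, x ≤ s ∧ s ≤ l * x) →
    ∀ h : Fin k → ℕ, (∀ i, h i ≤ B * N) →
    ∀ L : ℕ, (L : ℝ) ≤ Real.log N ^ κ → ∀ T : Fin L → Finset ℕ,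
    ∃ S : Fin k → Finset ℕ,
      (∀ i, ∀ s ∈ S i, s ∈ A i ∧ Real.log N ^ H ≤ s ∧ (s : ℝ) ≤ N / Real.log N ^ H) ∧
      (∀ i, ((S i).card : ℝ) ≤ C * Real.log (Real.log N) ^ 2 ∧ P ∣ ∑ s ∈ S i, s) ∧
      ∀ v : Fin k → ℤ, (∀ i, v i = 1 ∨ v i = -1) → ∀ m, ∀ X : ℕ, X ≤ B * N →
        |(((T m ∩ Icc 1 X).filter (fun n => ∀ i, lam (n + (h i + ∑ s ∈ S i, s)) = v i)).card : ℝ) -
          ((T m ∩ Icc 1 X).card : ℝ) / 2 ^ k| ≤ N / Real.log N ^ U := by
  obtain ⟨C, hC⟩ := Pool.Agent.Y885.las_kptq l P κ U hl hP Pool.Agent.Y885.laR Pool.Agent.Y885.fine_lam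
  refine ⟨C, fun H B => ?_⟩
  obtain ⟨N₀, h0⟩ := hC H B
  refine ⟨N₀ + 3, fun N hN k hk A hA h hh L hL T => ?_⟩
  have hLog1 : 1 ≤ Real.log (N : ℝ) := by
    have h3 : (3 : ℝ) ≤ N := by exact_mod_cast (by omega : 3 ≤ N)
    rw [Real.le_log_iff_exp_le (by linarith)]
    exact (Real.exp_one_lt_d9.le.trans (by norm_num)).trans h3
  obtain ⟨S, h1, h2, h3, h4⟩ := h0 k A hA N (by omega) hk h hh L hL (fun _ => 1)
    (fun m n => if n ∈ T m then 1 else 0) (fun _ => le_rfl) (by
      intro m n _ _
      refine le_trans ?_ (one_le_pow₀ hLog1)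
      split_ifs <;> simp)
  refine ⟨S, h1, fun i => ⟨h2 i, h3 i⟩, fun v hv m X hX => ?_⟩
  refine patterns k (T m ∩ Icc 1 X) (fun i n => lam (n + (h i + ∑ s ∈ S i, s))) (fun i n => ?_) _ (by positivity) ?_ v hv
  · unfold lam
    exact neg_one_pow_eq_or ℤ _
  intro I hI
  have h5 := h4 m I hI 1 le_rfl (one_le_pow₀ hLog1 |>.trans' (by simp)) 0 X (fun i _ => by rw [one_mul]; exact hX)
  refine le_trans (le_of_eq ?_) h5
  rw [← Real.norm_eq_abs, ← Complex.norm_real]
  congr 1
  have e1 : (Icc 1 X).filter (fun n => n ≡ 0 [MOD 1]) = Icc 1 X := filter_true_of_mem fun n _ => Nat.modEq_one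
  rw [e1]
  simp only [ite_mul, one_mul, zero_mul]
  rw [← sum_filter, filter_mem_eq_inter, inter_comm]
  unfold lam Pool.Agent.Y885.laR
  push_cast
  rfl

end Pool.Agent.Results.MP_4fffd4_nt.ShatteredNearAnyPositions
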