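import Pool.Agent.X273.SI3

/-!
# Block complexity of the Liouville function in every short interval

The Morse-Hedlund bound `n + 1` for the number of the sign patterns of length `n` of the Liouville
function is proved in EVERY interval of length `C_n √x`, with an explicit constant, and for every
completely multiplicative function with the values `1` and `-1` other than the constant `1`.
More generally no autonomous automaton with `S` states produces the values of such a function on an
interval `[x, x + 2 √(q S x) + 5 q S]`, `f q = -1` (for the Liouville function `q = 2`); so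
intervals of length `x ^ (1/2 + ε)` are sufficient for all automata with at most `x ^ ε` states.

Proof.  The output of such an automaton is periodic on the interval, up to the first `S` terms,
with a period `D ≤ S`, so `f` would be constant on the multiples of `D` in the interval. But the
interval contains numbers of the form `D s²` and `q D s²`.
-/

open Pool.Agent.X273.SI in
/-- Let `f` be completely multiplicative with the values `1` and `-1`, and `f q = -1` (for the
Liouville function: `q = 2`), and let `x > 0`.

(1) The values of `f` at `⌈x⌉, ⌈x⌉ + 1, …` up to `x + 2 √(q S x) + 5 q S` are not the output of an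
autonomous automaton with `S` states, transition function `δ`, output function `o` and initial
state `s`.

(2) For every `m` at least `m + 1` different blocks `(f (n), …, f (n + m - 1))` start at the integers
`n` of the interval `[x, x + 2 √(q 2 ^ m x) + 5 q 2 ^ m]`. -/
theorem Pool.Agent.Results.MP_4fffd4_nt.ShortIntervalComplexity.result :
    ∀ f : ℕ → ℤ, (∀ m n : ℕ, 1 ≤ m → 1 ≤ n → f (m * n) = f m * f n) →
      (∀ n : ℕ, 1 ≤ n → f n = 1 ∨ f n = -1) → ∀ q : ℕ, 1 ≤ q → f q = -1 → ∀ x : ℝ, 0 < x →
      (∀ (σ : Type) [Fintype σ] (δ : σ → σ) (o : σ → ℤ) (s : σ), ∃ i : ℕ,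
        ((⌈x⌉₊ + i : ℕ) : ℝ) ≤
          x + (2 * Real.sqrt (q * Fintype.card σ * x) + 5 * (q * Fintype.card σ)) ∧
        f (⌈x⌉₊ + i) ≠ o (δ^[i] s)) ∧
      (∀ m : ℕ, m + 1 ≤ Set.ncard {s : Fin m → ℤ | ∃ n : ℕ, x ≤ n ∧
        (n : ℝ) ≤ x + (2 * Real.sqrt (q * 2 ^ m * x) + 5 * (q * 2 ^ m)) ∧
        ∀ i : Fin m, s i = f (n + i)}) :=
  fun _ hm hv _ hq hfq x hx =>
    ⟨fun _ _ δ o s => automaton ⟨hm, hv⟩ hq hfq δ o s x hx,
      fun m => blocks ⟨hm, hv⟩ hq hfq m x hx⟩
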